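import Pool.Agent.Helper69_SER.Stmts

/-!
# Squad SER (MP_bd34ba_al): the cluster reduction
-/

set_option autoImplicit false

namespace SER.H41

open SER

theorem gen_trans {R : Type} [Ring R] {A B C : Type} [AddCommGroup A] [Module R A]
    [AddCommGroup B] [Module R B] [AddCommGroup C] [Module R C] (h₁ : Gen R A B)
    (h₂ : Gen R B C) : Gen R A C := fun S hS hA => h₂ S hS (h₁ S hS hA)

section partialSum

variable {R : Type} [Ring R] {N : Type} [AddCommGroup N] [Module R N] {ι : Type}
  {U : ι → ModuleCat.{0} R} (L : Loc R N ι U) (S : Set ι)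

open Classical in
/-- the values of the sum over `S` -/
noncomputable def tfun (n : N) : N :=
  ∑ i ∈ (L.fin n).toFinset, if i ∈ S then L.a i (L.b i n) else 0

open Classical in
theorem tfun_eq (n : N) (F : Finset ι) (hF : ∀ i, L.b i n ≠ 0 → i ∈ F) :
    tfun L S n = ∑ i ∈ F, if i ∈ S then L.a i (L.b i n) else 0 := by
  unfold tfun
  refine Finset.sum_subset ?_ ?_
  · intro i hi
    exact hF i (by simpa using hi)
  · intro i _ hi
    have h0 : L.b i n = 0 := by
      by_contra h
      exact hi (by simpa using h)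
    rw [h0, map_zero, ite_self]

/-- the sum over `S` as a linear map -/
noncomputable def tmap : N →ₗ[R] N where
  toFun := tfun L S
  map_add' := by
    classical
    intro x y
    let F : Finset ι := (L.fin x).toFinset ∪ (L.fin y).toFinset ∪ (L.fin (x + y)).toFinset
    have hx : ∀ i, L.b i x ≠ 0 → i ∈ F := fun i hi => by simp [F, hi]
    have hy : ∀ i, L.b i y ≠ 0 → i ∈ F := fun i hi => by simp [F, hi]
    have hxy : ∀ i, L.b i (x + y) ≠ 0 → i ∈ F := fun i hi =>
      Finset.mem_union_right _ (by simpa using hi)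
    rw [tfun_eq L S x F hx, tfun_eq L S y F hy, tfun_eq L S (x + y) F hxy,
      ← Finset.sum_add_distrib]
    refine Finset.sum_congr rfl fun i _ => ?_
    by_cases hi : i ∈ S
    · simp [hi]
    · simp [hi]
  map_smul' := by
    classical
    intro r x
    let F : Finset ι := (L.fin x).toFinset ∪ (L.fin (r • x)).toFinset
    have hx : ∀ i, L.b i x ≠ 0 → i ∈ F := fun i hi => by simp [F, hi]
    have hrx : ∀ i, L.b i (r • x) ≠ 0 → i ∈ F := fun i hi =>
      Finset.mem_union_right _ (by simpa using hi)
    rw [tfun_eq L S x F hx, tfun_eq L S (r • x) F hrx, RingHom.id_apply, Finset.smul_sum]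
    refine Finset.sum_congr rfl fun i _ => ?_
    by_cases hi : i ∈ S
    · simp [hi]
    · simp [hi]

open Classical in
theorem tmap_eq (n : N) (F : Finset ι) (hF : ∀ i, L.b i n ≠ 0 → i ∈ F) :
    tmap L S n = ∑ i ∈ F, if i ∈ S then L.a i (L.b i n) else 0 := tfun_eq L S n F hF

/-- if `g` kills the parts outside of `S` then `g (t m) = g m`. -/
theorem tmap_part {X : Type} [AddCommGroup X] [Module R X] (g : N →ₗ[R] X) (m : N)
    (h : ∀ k, k ∉ S → g (L.a k (L.b k m)) = 0) : g (tmap L S m) = g m := by
  classical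
  have hF : ∀ i, L.b i m ≠ 0 → i ∈ (L.fin m).toFinset := fun i hi => by simpa using hi
  rw [tmap_eq L S m _ hF, map_sum]
  conv_rhs => rw [← L.sum m _ hF, map_sum]
  refine Finset.sum_congr rfl fun i _ => ?_
  by_cases hi : i ∈ S
  · rw [if_pos hi]
  · rw [if_neg hi, map_zero, h i hi]

theorem tmap_zero_of (m : N) (h : ∀ i, i ∈ S → L.b i m = 0) : tmap L S m = 0 := by
  classical
  have hF : ∀ i, L.b i m ≠ 0 → i ∈ (L.fin m).toFinset := fun i hi => by simpa using hi
  rw [tmap_eq L S m _ hF]
  refine Finset.sum_eq_zero fun i _ => ?_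
  by_cases hi : i ∈ S
  · rw [if_pos hi, h i hi, map_zero]
  · rw [if_neg hi]

end partialSum

theorem clu (hK : KStmt) (hZp : ZpStmt) (hGQ : GQStmt) (hCount : CountStmt) : CluStmt := by
  intro R _ N _ _ hN hnt ι U hU L
  classical
  obtain ⟨j0, α, β, hinj⟩ := hK R N hN hnt ι U hU L
  let S : Set ι := {i | Gen R (U i) (U j0) ∧ Gen R (U j0) (U i)}
  let t : N →ₗ[R] N := tmap L S
  have hnS : ∀ k, k ∉ S → ¬ Gen R (U k) (U j0) ∨ ¬ Gen R (U j0) (U k) := by
    intro k hk
    by_contra h
    push Not at h
    exact hk h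
  -- the two vanishing statements
  have hbt : ∀ k, ¬ Gen R (U k) (U j0) → ∀ n, L.b k (t n) = 0 := by
    intro k hk n
    have hF : ∀ i, L.b i n ≠ 0 → i ∈ (L.fin n).toFinset := fun i hi => by simpa using hi
    change L.b k (tmap L S n) = 0
    rw [tmap_eq L S n _ hF, map_sum]
    refine Finset.sum_eq_zero fun l _ => ?_
    by_cases hl : l ∈ S
    · rw [if_pos hl]
      have hng : ¬ Gen R (U k) (U l) := fun h => hk (gen_trans h hl.1)
      have h := hZp R N hN ι U hU L (U l) (U k) (hU l) hng (L.b l) (L.b k ∘ₗ L.a l)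
      exact LinearMap.congr_fun h n
    · rw [if_neg hl, map_zero]
  have hta : ∀ k, ¬ Gen R (U j0) (U k) → ∀ n, t (L.a k (L.b k n)) = 0 := by
    intro k hk n
    refine tmap_zero_of L S _ fun i hi => ?_
    have hng : ¬ Gen R (U i) (U k) := fun h => hk (gen_trans hi.2 h)
    have h := hZp R N hN ι U hU L (U k) (U i) (hU k) hng (L.b k) (L.b i ∘ₗ L.a k)
    exact LinearMap.congr_fun h n
  have httt : ∀ n, t (t (t n)) = t (t n) := by
    intro n
    refine tmap_part L S t (t n) fun k hk => ?_
    rcases hnS k hk with h | h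
    · rw [hbt k h, map_zero, map_zero]
    · exact hta k h _
  have hβa : ∀ k, ¬ Gen R (U j0) (U k) → ∀ n, β (L.a k (L.b k n)) = 0 := by
    intro k hk n
    have h := hZp R N hN ι U hU L (U k) (U j0) (hU k) hk (L.b k) (β ∘ₗ L.a k)
    exact LinearMap.congr_fun h n
  have hβ1 : ∀ n, β (t (α (β n))) = β (α (β n)) := by
    intro n
    refine tmap_part L S β _ fun k hk => ?_
    rcases hnS k hk with h | h
    · have h2 := hZp R N hN ι U hU L (U j0) (U k) (hU j0) h β (L.b k ∘ₗ α)
      have h3 : L.b k (α (β n)) = 0 := LinearMap.congr_fun h2 n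
      rw [h3, map_zero, map_zero]
    · exact hβa k h _
  have hβ2 : ∀ n, β (t (t (α (β n)))) = β (t (α (β n))) := by
    intro n
    refine tmap_part L S β _ fun k hk => ?_
    rcases hnS k hk with h | h
    · rw [hbt k h, map_zero, map_zero]
    · exact hβa k h _
  -- the idempotent
  let e : N →ₗ[R] N := t ∘ₗ t
  have hee : ∀ n, e (e n) = e n := by
    intro n
    change t (t (t (t n))) = t (t n)
    rw [httt, httt]
  have het : ∀ n, e (t n) = e n := fun n => httt n
  let N' : Submodule R N := LinearMap.range e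
  have heN : ∀ n : N', e (n : N) = n := by
    rintro ⟨_, m, rfl⟩
    exact hee m
  let f : U j0 →ₗ[R] U j0 := β ∘ₗ α
  refine ⟨ModuleCat.of R N', N'.subtype, e.rangeRestrict, {i // i ∈ S}, fun i => U i.1, U j0, f,
    ?_, ?_, fun i => hU i.1, ⟨?_⟩, hU j0, hinj, ?_, ?_⟩
  · ext n
    exact congrArg Subtype.val (show e.rangeRestrict (n : N) = n from Subtype.ext (heN n))
  · haveI : Nontrivial (U j0) := (hU j0).1
    obtain ⟨v, hv⟩ := exists_ne (0 : U j0)
    have h1 : β (α (β (α v))) ≠ 0 := by
      intro h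
      have h2 : β (α v) = 0 := hinj (by
        change β (α (β (α v))) = β (α 0)
        rw [h, map_zero, map_zero])
      exact hv (hinj (by
        change β (α v) = β (α 0)
        rw [h2, map_zero, map_zero]))
    have h2 : e (α (β (α v))) ≠ 0 := by
      intro h
      apply h1
      rw [← hβ1, ← hβ2]
      change β (e (α (β (α v)))) = 0
      rw [h, map_zero]
    exact ⟨⟨⟨e (α (β (α v))), LinearMap.mem_range_self _ _⟩, 0, fun h =>
      h2 (congrArg Subtype.val h)⟩⟩
  · refine
      { a := fun i => e.rangeRestrict ∘ₗ L.a i.1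
        b := fun i => L.b i.1 ∘ₗ N'.subtype
        fin := ?_
        sum := ?_ }
    · intro n
      exact (L.fin (n : N)).preimage (Subtype.val_injective.injOn)
    · intro n F hF
      have h1 : ∑ i ∈ F, L.a i.1 (L.b i.1 (n : N)) = t (n : N) := by
        have hG : ∀ i, L.b i (n : N) ≠ 0 →
            i ∈ (L.fin (n : N)).toFinset ∪ F.map (Function.Embedding.subtype _) := fun i hi =>
          Finset.mem_union_left _ (by simpa using hi)
        change _ = tmap L S (n : N)
        rw [tmap_eq L S (n : N) _ hG]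
        symm
        rw [← Finset.sum_subset (Finset.subset_union_right) (s₁ := F.map _), Finset.sum_map]
        · refine Finset.sum_congr rfl fun i _ => ?_
          rw [if_pos (show (Function.Embedding.subtype (fun i => i ∈ S)) i ∈ S from i.2)]
          rfl
        · intro i _ hi
          by_cases hiS : i ∈ S
          · have h0 : L.b i (n : N) = 0 := by
              by_contra h
              exact hi (Finset.mem_map.mpr ⟨⟨i, hiS⟩, hF ⟨i, hiS⟩ h, rfl⟩)
            rw [if_pos hiS, h0, map_zero]
          · rw [if_neg hiS]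
      apply Subtype.ext
      have h2 : (((∑ i ∈ F, e.rangeRestrict (L.a i.1 (L.b i.1 (n : N)))) : N') : N) =
          e (∑ i ∈ F, L.a i.1 (L.b i.1 (n : N))) := by
        rw [← map_sum]
        rfl
      refine h2.trans ?_
      rw [h1, het, heN]
  · intro i
    exact gen_trans (hGQ R N hN ι U hU L (U j0) (hU j0) α β hinj) i.2.2
  · intro i
    exact hCount R (U i.1) (U j0) i.2.1 (f ∘ₗ f) (hinj.comp hinj)

end SER.H41
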