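import Pool.Agent.Helper69_SER.Stmts

/-!
# Squad SER (MP_bd34ba_al): elimination of a Z-type slot
-/

set_option autoImplicit false

namespace SER.H41

open SER

section basics

variable {R : Type} [Ring R] {N X Y Z : Type} [AddCommGroup N] [Module R N]
  [AddCommGroup X] [Module R X] [AddCommGroup Y] [Module R Y] [AddCommGroup Z] [Module R Z]

theorem hi_left (g : Y →ₗ[R] Z) {f : X →ₗ[R] Y} (hf : f ∈ HI R N X Y) :
    g ∘ₗ f ∈ HI R N X Z := by
  refine AddSubgroup.closure_induction (p := fun f _ => g ∘ₗ f ∈ HI R N X Z) ?_ ?_ ?_ ?_ hf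
  · rintro f ⟨α, β, rfl⟩
    exact AddSubgroup.subset_closure ⟨α, g ∘ₗ β, by rw [LinearMap.comp_assoc]⟩
  · simp
  · intro f₁ f₂ _ _ h₁ h₂
    rw [LinearMap.comp_add]
    exact add_mem h₁ h₂
  · intro f _ h
    rw [LinearMap.comp_neg]
    exact neg_mem h

theorem hi_right (g : X →ₗ[R] Y) {f : Y →ₗ[R] Z} (hf : f ∈ HI R N Y Z) :
    f ∘ₗ g ∈ HI R N X Z := by
  refine AddSubgroup.closure_induction (p := fun f _ => f ∘ₗ g ∈ HI R N X Z) ?_ ?_ ?_ ?_ hf
  · rintro f ⟨α, β, rfl⟩
    exact AddSubgroup.subset_closure ⟨α ∘ₗ g, β, by rw [LinearMap.comp_assoc]⟩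
  · simp
  · intro f₁ f₂ _ _ h₁ h₂
    rw [LinearMap.add_comp]
    exact add_mem h₁ h₂
  · intro f _ h
    rw [LinearMap.neg_comp]
    exact neg_mem h

theorem surj_of_add (hY : Chain R Y) (f g : X →ₗ[R] Y) (h : Function.Surjective (f + g)) :
    Function.Surjective f ∨ Function.Surjective g := by
  rcases hY (LinearMap.range f) (LinearMap.range g) with hle | hle
  · right
    intro y
    obtain ⟨x, hx⟩ := h y
    have h1 : f x ∈ LinearMap.range g := hle ⟨x, rfl⟩
    have h2 : y ∈ LinearMap.range g := by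
      rw [← hx]
      exact add_mem h1 ⟨x, rfl⟩
    exact h2
  · left
    intro y
    obtain ⟨x, hx⟩ := h y
    have h1 : g x ∈ LinearMap.range f := hle ⟨x, rfl⟩
    have h2 : y ∈ LinearMap.range f := by
      rw [← hx]
      exact add_mem ⟨x, rfl⟩ h1
    exact h2

theorem not_big_sum {big : ∀ Y : ModuleCat.{0} R, Y → Prop} (hb : Big R big)
    (Y : ModuleCat.{0} R) {ι : Type} (s : Finset ι) (f : ι → Y) (h : ∀ i ∈ s, ¬ big Y (f i)) :
    ¬ big Y (∑ i ∈ s, f i) := by
  classical
  induction s using Finset.induction_on with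
  | empty =>
    rw [Finset.sum_empty]
    exact hb.zero Y
  | insert a s ha ih =>
    rw [Finset.sum_insert ha]
    intro hbig
    rcases hb.add Y _ _ hbig with h1 | h1
    · exact h a (Finset.mem_insert_self a s) h1
    · exact ih (fun i hi => h i (Finset.mem_insert_of_mem hi)) h1

end basics

theorem redZ (hH1 : H1Stmt) (hTh : ThetaStmt) : RedZStmt := by
  intro R _ N _ _ hN n hE big hbig P _ _ J _ X hcard hU hP3 d E hEI x hx j hj V _ _ hV hVZ
    p Y r hp hC hr
  classical
  -- the diagonal entry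
  let Ejj : X j →ₗ[R] X j := d.pr j ∘ₗ E ∘ₗ d.inc j
  have hEjj : Ejj ∈ HI R N (X j) (X j) := hi_left (d.pr j) (hi_right (d.inc j) hEI)
  obtain ⟨f, hfI, hfinj⟩ := hj
  have hEns : ¬ Function.Surjective Ejj := hH1 R N hN (X j) (hU j) f hfI Ejj hEjj hfinj
  let Cjj : X j →ₗ[R] X j := LinearMap.id - Ejj
  have hCs : Function.Surjective Cjj := by
    have h1 : Function.Surjective (Cjj + Ejj) := by
      change Function.Surjective (((LinearMap.id : X j →ₗ[R] X j) - Ejj) + Ejj)
      rw [sub_add_cancel]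
      exact Function.surjective_id
    rcases surj_of_add (hU j).2 _ _ h1 with h | h
    · exact h
    · exact absurd h hEns
  let y : V →ₗ[R] X j := d.pr j ∘ₗ Y
  have hyp : ∀ w, y (p w) = w - Ejj w := by
    intro w
    change d.pr j (Y (p w)) = w - d.pr j (E (d.inc j w))
    rw [← hC w, map_sub, d.pr_inc]
  have hys : Function.Surjective y := by
    intro w
    obtain ⟨v, hv⟩ := hCs w
    exact ⟨p v, by rw [hyp]; exact hv⟩
  let θ : V →ₗ[R] V := p ∘ₗ y
  have hθs : Function.Surjective θ := hp.comp hys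
  have hθI : θ - θ ∘ₗ θ ∈ HI R N V V := by
    have e : θ - θ ∘ₗ θ = p ∘ₗ Ejj ∘ₗ y := by
      ext v
      change p (y v) - p (y (p (y v))) = p (Ejj (y v))
      rw [hyp, map_sub, sub_sub_cancel]
    rw [e]
    exact hi_left p (hi_right y hEjj)
  have h1θ : LinearMap.id - θ ∈ HI R N V V := hTh R N hN V hV hVZ θ hθs hθI
  -- the kernel of the slot
  let K : Submodule R P := LinearMap.ker (d.pr j)
  let π : P →ₗ[R] K := LinearMap.codRestrict K (LinearMap.id - d.inc j ∘ₗ d.pr j) (by
    intro v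
    change d.pr j (v - d.inc j (d.pr j v)) = 0
    rw [map_sub, d.pr_inc, sub_self])
  have hπ : ∀ v, ((π v : K) : P) = v - d.inc j (d.pr j v) := fun v => rfl
  have hπK : ∀ v : K, π (v : P) = v := by
    intro v
    apply Subtype.ext
    rw [hπ]
    have : d.pr j (v : P) = 0 := v.2
    rw [this, map_zero, sub_zero]
  have hπinc : ∀ w, π (d.inc j w) = 0 := by
    intro w
    apply Subtype.ext
    rw [hπ, d.pr_inc, sub_self]
    rfl
  have hπY : π ∘ₗ Y ∈ HI R N V K := by
    have e : π ∘ₗ Y = (π ∘ₗ Y) ∘ₗ (LinearMap.id - θ) + -((π ∘ₗ E ∘ₗ d.inc j) ∘ₗ y) := by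
      ext v
      change ((π (Y v) : K) : P) = ((π (Y (v - θ v)) + -(π (E (d.inc j (y v)))) : K) : P)
      congr 1
      have h2 : Y (θ v) = d.inc j (y v) - E (d.inc j (y v)) := (hC (y v)).symm
      rw [map_sub, map_sub, h2, map_sub, hπinc]
      abel
    rw [e]
    exact add_mem (hi_left _ h1θ) (neg_mem (hi_right y (hi_left π (hi_right (d.inc j) hEI))))
  -- the reduced data
  let E' : K →ₗ[R] K := (π ∘ₗ Y) ∘ₗ r ∘ₗ K.subtype +
    π ∘ₗ (LinearMap.id - Y ∘ₗ r) ∘ₗ E ∘ₗ K.subtype
  have hE'I : E' ∈ HI R N K K :=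
    add_mem (hi_right _ hπY) (hi_left π (hi_left _ (hi_right K.subtype hEI)))
  let x' : K := π x
  have hx' : E' x' = x' := by
    have h1 : ((x' : K) : P) - E (x' : P) = -Y (p (d.pr j x)) := by
      change (x - d.inc j (d.pr j x)) - E (x - d.inc j (d.pr j x)) = _
      rw [map_sub, hx, ← hC]
      abel
    have h2 : (x' : P) = Y (r (x' : P)) + (E (x' : P) - Y (r (E (x' : P)))) := by
      have h3 : Y (r ((x' : P) - E (x' : P))) = (x' : P) - E (x' : P) := by
        rw [h1, map_neg, map_neg, hr]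
      rw [map_sub, map_sub] at h3
      have h4 : (x' : P) = E (x' : P) + (Y (r (x' : P)) - Y (r (E (x' : P)))) := by
        rw [h3]; abel
      exact h4.trans (by abel)
    change π (Y (r (x' : P))) + π (E (x' : P) - Y (r (E (x' : P)))) = x'
    rw [← map_add, ← h2, hπK]
  let J' : Type := {k : J // k ≠ j}
  let X' : J' → ModuleCat.{0} R := fun k => X k.1
  let d' : Dec R K J' X' :=
    { inc := fun k => LinearMap.codRestrict K (d.inc k.1) (by
        intro v
        exact d.pr_inc_ne j k.1 (Ne.symm k.2) v)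
      pr := fun k => d.pr k.1 ∘ₗ K.subtype
      pr_inc := fun k v => d.pr_inc k.1 v
      pr_inc_ne := fun k l hkl v => d.pr_inc_ne k.1 l.1 (fun h => hkl (Subtype.ext h)) v
      sum := by
        intro v
        apply Subtype.ext
        have h := d.sum (v : P)
        rw [Fintype.sum_eq_add_sum_subtype_ne _ j] at h
        have h0 : d.pr j (v : P) = 0 := v.2
        rw [h0, map_zero, zero_add] at h
        rw [← h]
        simp only [AddSubmonoidClass.coe_finsetSum]
        rfl }
  have hcard' : Fintype.card J' = n := by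
    have := Fintype.card_subtype_compl (fun k => k = j)
    rw [Fintype.card_subtype_eq] at this
    have h2 : Fintype.card J' = Fintype.card J - 1 := by
      rw [← this]
    rw [h2, hcard]
    rfl
  have hmain : ∀ k : J', ¬ big (X k.1) (d.pr k.1 x) := by
    intro k
    have h := hE big hbig K J' X' hcard' (fun k => hU k.1) (fun k hk c hc v hv => hP3 k.1 hk c hc v hv)
      d' E' hE'I x' hx' k
    have e : d'.pr k x' = d.pr k.1 x := by
      change d.pr k.1 (x - d.inc j (d.pr j x)) = d.pr k.1 x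
      rw [map_sub, d.pr_inc_ne k.1 j k.2, sub_zero]
    rw [e] at h
    exact h
  intro k
  by_cases hkj : k = j
  · subst hkj
    intro hb
    have h1 := hP3 k ⟨f, hfI, hfinj⟩ Cjj hCs _ hb
    have h2 : Cjj (d.pr k x) =
        ∑ l : {l : J // l ≠ k}, d.pr k (E (d.inc l.1 (d.pr l.1 x))) := by
      have h3 := d.sum x
      have h4 : d.pr k x = ∑ l, d.pr k (E (d.inc l (d.pr l x))) := by
        conv_lhs => rw [← hx, ← h3, map_sum, map_sum]
      rw [Fintype.sum_eq_add_sum_subtype_ne _ k] at h4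
      change d.pr k x - d.pr k (E (d.inc k (d.pr k x))) = _
      conv_lhs => lhs; rw [h4]
      rw [add_sub_cancel_left]
    rw [h2] at h1
    refine not_big_sum hbig (X k) Finset.univ _ ?_ h1
    intro l _ hbl
    exact hmain l (hbig.map (X l.1) (X k) (d.pr k ∘ₗ E ∘ₗ d.inc l.1) _ hbl)
  · exact hmain ⟨k, hkj⟩

end SER.H41
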